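import Pool.Agent.KS6_36.MST.Graph

/-!
# Contracting a pendant edge of a unicyclic graph can raise the mean subtree order linearly

The graph is a cycle with two clusters of about `n / 100` pendant vertices, at vertices which cut
the cycle into a short and a long arc (about `2 : 5`), and one more pendant vertex `v` at the middle
vertex `u` of the short arc.
-/

set_option autoImplicit false

namespace Pool.Agent.Results.MP_e83d06_co.LinearIncrease

/-- The mean subtree order: the average number of vertices over all subgraphs that are trees. -/
noncomputable def meanSubtreeOrder {V : Type*} (G : SimpleGraph V) : ℚ :=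
  ((∑ᶠ H ∈ {H : G.Subgraph | H.coe.IsTree}, H.verts.ncard : ℕ) : ℚ) /
    ({H : G.Subgraph | H.coe.IsTree}.ncard : ℚ)

/-- Contraction of the edge `u v`: the vertex `v` is merged into `u`, loops are deleted and
parallel edges are merged. -/
def contract {V : Type*} (G : SimpleGraph V) (u v : V) : SimpleGraph {w : V // w ≠ v} where
  Adj a b := a ≠ b ∧ (G.Adj a b ∨ (a.1 = u ∧ G.Adj v b) ∨ (b.1 = u ∧ G.Adj v a))
  symm := ⟨fun _ _ h => ⟨h.1.symm, h.2.elim (fun h => Or.inl h.symm)
    (fun h => Or.inr h.symm)⟩⟩
  loopless := ⟨fun _ h => h.1 rfl⟩

/-- **Theorem.** For every `n ≥ 4000` there are a connected graph `G` with `n` vertices and `n`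
edges and an edge `u v` of `G`, where `v` has no neighbour besides `u`, such that
`μ(G / uv) ≥ μ(G) + n / 400`.

In particular `μ(G) - μ(G / e) ≥ 1/3` does not hold for all connected graphs and all edges, not even
for unicyclic graphs and pendant edges, and the failure is by an amount linear in the order. -/
theorem result : ∀ n : ℕ, 4000 ≤ n → ∃ (G : SimpleGraph (Fin n)) (u v : Fin n),
    G.Connected ∧ G.edgeSet.ncard = n ∧ G.Adj u v ∧ (∀ w, G.Adj v w → w = u) ∧
    meanSubtreeOrder G + (n : ℚ) / 400 ≤ meanSubtreeOrder (contract G u v) :=
  fun _ hn => Pool.Agent.KS6_36.MST.main hn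

end Pool.Agent.Results.MP_e83d06_co.LinearIncrease
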